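import Pool.Agent.Helper13.R6.SheetB

/-! # ARR: the Plücker array of a vector, its content, and proportionality modulo `D` -/

set_option autoImplicit false

namespace Pool.Helper13.R6

namespace ARRProof

theorem plu_arr (a : Fin 3 → ℤ) (x : P6) (h : qf a x = 0) : Plu (arr a x) := by
  constructor
  · intro i j
    fin_cases i <;> fin_cases j <;> simp [arr]
  · simp only [qf, Fin.sum_univ_three] at h
    simp [arr]
    linarith

theorem arr_dvd (a : Fin 3 → ℤ) (x : P6) (m : ℤ) (h : ∀ i j, m ∣ arr a x i j) (u : Fin 3) :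
    m ∣ a u * x.1 u ∧ m ∣ x.2 u := by
  have h01 := h 0 1
  have h02 := h 0 2
  have h03 := h 0 3
  have h12 := h 1 2
  have h31 := h 3 1
  have h23 := h 2 3
  simp [arr] at h01 h02 h03 h12 h31 h23
  fin_cases u
  · exact ⟨h01, h23⟩
  · exact ⟨h02, h31⟩
  · exact ⟨h03, h12⟩

theorem arr_rel (a : Fin 3 → ℤ) (x x' : P6) (D κ : ℤ)
    (h : ∀ u, D ∣ x'.1 u - κ * x.1 u ∧ D ∣ x'.2 u - κ * x.2 u) (i j : Fin 4) :
    D ∣ arr a x' i j - κ * arr a x i j := by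
  have hp : ∀ u, D ∣ a u * x'.1 u - κ * (a u * x.1 u) := by
    intro u
    have e : a u * x'.1 u - κ * (a u * x.1 u) = a u * (x'.1 u - κ * x.1 u) := by ring
    rw [e]
    exact dvd_mul_of_dvd_right (h u).1 _
  have hp' : ∀ u, D ∣ -(a u * x'.1 u) - κ * -(a u * x.1 u) := by
    intro u
    have e : -(a u * x'.1 u) - κ * -(a u * x.1 u) = -(a u * x'.1 u - κ * (a u * x.1 u)) := by ring
    rw [e]
    exact (dvd_neg).2 (hp u)
  have hr' : ∀ u, D ∣ -(x'.2 u) - κ * -(x.2 u) := by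
    intro u
    have e : -(x'.2 u) - κ * -(x.2 u) = -(x'.2 u - κ * x.2 u) := by ring
    rw [e]
    exact (dvd_neg).2 (h u).2
  have h0 : D ∣ (0 : ℤ) - κ * 0 := by simp
  fin_cases i <;> fin_cases j
  · exact h0
  · exact hp 0
  · exact hp 1
  · exact hp 2
  · exact hp' 0
  · exact h0
  · exact (h 2).2
  · exact hr' 1
  · exact hp' 1
  · exact hr' 2
  · exact h0
  · exact (h 0).2
  · exact hp' 2
  · exact (h 1).2
  · exact hr' 0
  · exact h0

theorem dvd_of_prim (z : A4) (hz : PrimA z) (m g : ℤ) (hg : g ≠ 0)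
    (h : ∀ i j, m ∣ g * z i j) : m ∣ g := by
  obtain ⟨m', g', hcop, hm, hg'⟩ := Int.exists_gcd_one (m := m) (n := g)
    (Int.gcd_pos_of_ne_zero_right m hg)
  have hc : IsCoprime m' g' := Int.isCoprime_iff_gcd_eq_one.2 hcop
  have hgc : (0 : ℤ) < (Int.gcd m g : ℤ) := by
    exact_mod_cast Int.gcd_pos_of_ne_zero_right m hg
  have hu : IsUnit m' := by
    refine hz m' ?_
    intro i j
    have h1 := h i j
    have h2 : m' * (Int.gcd m g : ℤ) ∣ (g' * z i j) * (Int.gcd m g : ℤ) := by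
      have e : (g' * z i j) * (Int.gcd m g : ℤ) = g * z i j := by
        calc (g' * z i j) * (Int.gcd m g : ℤ) = (g' * (Int.gcd m g : ℤ)) * z i j := by ring
          _ = g * z i j := by rw [← hg']
      rw [e, ← hm]
      exact h1
    exact hc.dvd_of_dvd_mul_left (Int.dvd_of_mul_dvd_mul_right hgc.ne' h2)
  have h3 : m ∣ (Int.gcd m g : ℤ) := by
    conv_lhs => rw [hm]
    exact (hu.mul_left_dvd).2 dvd_rfl
  exact h3.trans (Int.gcd_dvd_right m g)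

theorem content (a : Fin 3 → ℤ) (ha : ∀ u, a u ≠ 0) (G : ℕ) (x : P6)
    (hG : ∀ m : ℤ, (∀ u, m ∣ x.1 u ∧ m ∣ x.2 u) → |m| ≤ 2 * G)
    (hx : ∀ u, x.1 u ≠ 0 ∧ x.2 u ≠ 0) :
    ∃ g : ℕ, 0 < g ∧ g ≤ 2 * G * (|a 0| * |a 1| * |a 2|).toNat ∧
      ∃ z : A4, PrimA z ∧ ∀ i j, arr a x i j = (g : ℤ) * z i j := by
  classical
  obtain ⟨z, hz1, hz2⟩ := Finset.extract_gcd
    (s := (Finset.univ : Finset (Fin 4 × Fin 4))) (fun p => arr a x p.1 p.2) ⟨(0, 0), by simp⟩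
  set g0 : ℤ := (Finset.univ : Finset (Fin 4 × Fin 4)).gcd (fun p => arr a x p.1 p.2) with hg0
  have hnn : 0 ≤ g0 := by
    have h1 : normalize g0 = g0 := Finset.normalize_gcd
    rw [← h1, ← Int.abs_eq_normalize]
    exact abs_nonneg _
  have hz : ∀ i j, arr a x i j = g0 * z (i, j) := fun i j => hz1 (i, j) (Finset.mem_univ _)
  have hne : g0 ≠ 0 := by
    intro h0
    have h1 := hz 1 2
    rw [h0, zero_mul] at h1
    exact (hx 2).2 h1
  have hpos : 0 < g0 := lt_of_le_of_ne hnn (Ne.symm hne)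
  have hdv : ∀ u, g0 ∣ a u * x.1 u ∧ g0 ∣ x.2 u :=
    arr_dvd a x g0 (fun i j => ⟨z (i, j), hz i j⟩)
  have hA : a 0 * a 1 * a 2 ≠ 0 := mul_ne_zero (mul_ne_zero (ha 0) (ha 1)) (ha 2)
  have hAu : ∀ u, a u ∣ a 0 * a 1 * a 2 := by
    intro u
    fin_cases u
    · exact ⟨a 1 * a 2, by simp only [Fin.zero_eta]; ring⟩
    · exact ⟨a 0 * a 2, by simp only [Fin.mk_one]; ring⟩
    · exact ⟨a 0 * a 1, by simp only [Fin.reduceFinMk]; ring⟩
  -- `m = g0 / gcd(g0, A)` divides all `p_u`, `r_u`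
  obtain ⟨m, A', hcop, hm, hA'⟩ := Int.exists_gcd_one (m := g0) (n := a 0 * a 1 * a 2)
    (Int.gcd_pos_of_ne_zero_left _ hne)
  have hcop' : IsCoprime m A' := Int.isCoprime_iff_gcd_eq_one.2 hcop
  have hcpos : (0 : ℤ) < (Int.gcd g0 (a 0 * a 1 * a 2) : ℤ) := by
    exact_mod_cast Int.gcd_pos_of_ne_zero_left _ hne
  have hmm : ∀ u, m ∣ x.1 u ∧ m ∣ x.2 u := by
    intro u
    constructor
    · have h1 : g0 ∣ (a 0 * a 1 * a 2) * x.1 u := by
        obtain ⟨w, hw⟩ := hAu u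
        have e : (a 0 * a 1 * a 2) * x.1 u = (a u * x.1 u) * w := by rw [hw]; ring
        rw [e]
        exact dvd_mul_of_dvd_left (hdv u).1 _
      have h2 : m * (Int.gcd g0 (a 0 * a 1 * a 2) : ℤ) ∣
          (A' * x.1 u) * (Int.gcd g0 (a 0 * a 1 * a 2) : ℤ) := by
        have e : (A' * x.1 u) * (Int.gcd g0 (a 0 * a 1 * a 2) : ℤ) =
            (a 0 * a 1 * a 2) * x.1 u := by
          calc (A' * x.1 u) * (Int.gcd g0 (a 0 * a 1 * a 2) : ℤ) =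
              (A' * (Int.gcd g0 (a 0 * a 1 * a 2) : ℤ)) * x.1 u := by ring
            _ = (a 0 * a 1 * a 2) * x.1 u := by rw [← hA']
        rw [e, ← hm]
        exact h1
      exact hcop'.dvd_of_dvd_mul_left (Int.dvd_of_mul_dvd_mul_right hcpos.ne' h2)
    · exact dvd_trans ⟨_, hm⟩ (hdv u).2
  have hmle : |m| ≤ 2 * G := hG m hmm
  have hcle : (Int.gcd g0 (a 0 * a 1 * a 2) : ℤ) ≤ |a 0| * |a 1| * |a 2| := by
    rw [← abs_mul, ← abs_mul]
    exact Int.le_of_dvd (abs_pos.2 hA) ((dvd_abs _ _).2 (Int.gcd_dvd_right _ _))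
  have hgle : g0 ≤ 2 * G * (|a 0| * |a 1| * |a 2|) := by
    have h1 : g0 = |m| * (Int.gcd g0 (a 0 * a 1 * a 2) : ℤ) := by
      have h2 := congrArg abs hm
      rw [abs_of_pos hpos, abs_mul, abs_of_pos hcpos] at h2
      exact h2
    have h3 : (0 : ℤ) ≤ 2 * G := by positivity
    calc g0 = |m| * (Int.gcd g0 (a 0 * a 1 * a 2) : ℤ) := h1
      _ ≤ 2 * G * (|a 0| * |a 1| * |a 2|) := mul_le_mul hmle hcle hcpos.le h3
  refine ⟨g0.toNat, ?_, ?_, fun i j => z (i, j), ?_, ?_⟩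
  · omega
  · have h1 : ((g0.toNat : ℕ) : ℤ) ≤ ((2 * G * (|a 0| * |a 1| * |a 2|).toNat : ℕ) : ℤ) := by
      push_cast
      rw [Int.toNat_of_nonneg hnn, Int.toNat_of_nonneg (by positivity)]
      exact hgle
    exact_mod_cast h1
  · intro w hw
    have h1 : w ∣ (Finset.univ : Finset (Fin 4 × Fin 4)).gcd z :=
      Finset.dvd_gcd (fun p _ => hw p.1 p.2)
    rw [hz2] at h1
    exact isUnit_of_dvd_one h1
  · intro i j
    rw [Int.toNat_of_nonneg hnn]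
    exact hz i j

theorem gcd_eq (a : Fin 3 → ℤ) (x x' : P6) (D g g' : ℕ) (z z' : A4) (_hD : 0 < D) (hg : 0 < g)
    (hg' : 0 < g') (hz : PrimA z) (hz' : PrimA z') (e : ∀ i j, arr a x i j = (g : ℤ) * z i j)
    (e' : ∀ i j, arr a x' i j = (g' : ℤ) * z' i j) (hR : RelP D x x') :
    Nat.gcd g D = Nat.gcd g' D ∧ Rel (D / Nat.gcd g D) z z' := by
  obtain ⟨κ, hκ, hd⟩ := hR
  have hrel : ∀ i j, (D : ℤ) ∣ (g' : ℤ) * z' i j - κ * ((g : ℤ) * z i j) := by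
    intro i j
    have h1 := arr_rel a x x' (D : ℤ) κ hd i j
    rw [e, e'] at h1
    exact h1
  have hgz : (g : ℤ) ≠ 0 := by exact_mod_cast hg.ne'
  have hgz' : (g' : ℤ) ≠ 0 := by exact_mod_cast hg'.ne'
  have hδ1 : Nat.gcd g D ∣ Nat.gcd g' D := by
    refine Nat.dvd_gcd ?_ (Nat.gcd_dvd_right _ _)
    have h1 : ((Nat.gcd g D : ℕ) : ℤ) ∣ (g' : ℤ) := by
      refine dvd_of_prim z' hz' _ _ hgz' ?_
      intro i j
      have h2 : ((Nat.gcd g D : ℕ) : ℤ) ∣ (g' : ℤ) * z' i j - κ * ((g : ℤ) * z i j) :=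
        dvd_trans (Int.natCast_dvd_natCast.2 (Nat.gcd_dvd_right _ _)) (hrel i j)
      have h3 : ((Nat.gcd g D : ℕ) : ℤ) ∣ κ * ((g : ℤ) * z i j) :=
        dvd_mul_of_dvd_right (dvd_mul_of_dvd_left
          (Int.natCast_dvd_natCast.2 (Nat.gcd_dvd_left _ _)) _) _
      have h4 := dvd_add h2 h3
      rwa [sub_add_cancel] at h4
    exact Int.natCast_dvd_natCast.1 h1
  have hδ2 : Nat.gcd g' D ∣ Nat.gcd g D := by
    refine Nat.dvd_gcd ?_ (Nat.gcd_dvd_right _ _)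
    have h1 : ((Nat.gcd g' D : ℕ) : ℤ) ∣ (g : ℤ) := by
      refine dvd_of_prim z hz _ _ hgz ?_
      intro i j
      have h2 : ((Nat.gcd g' D : ℕ) : ℤ) ∣ (g' : ℤ) * z' i j - κ * ((g : ℤ) * z i j) :=
        dvd_trans (Int.natCast_dvd_natCast.2 (Nat.gcd_dvd_right _ _)) (hrel i j)
      have h3 : ((Nat.gcd g' D : ℕ) : ℤ) ∣ (g' : ℤ) * z' i j :=
        dvd_mul_of_dvd_left (Int.natCast_dvd_natCast.2 (Nat.gcd_dvd_left _ _)) _
      have h4 : ((Nat.gcd g' D : ℕ) : ℤ) ∣ κ * ((g : ℤ) * z i j) := by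
        have h5 := dvd_sub h3 h2
        rwa [sub_sub_cancel] at h5
      have h6 : IsCoprime ((Nat.gcd g' D : ℕ) : ℤ) κ :=
        (hκ.symm).of_isCoprime_of_dvd_left (Int.natCast_dvd_natCast.2 (Nat.gcd_dvd_right _ _))
      exact h6.dvd_of_dvd_mul_left h4
    exact Int.natCast_dvd_natCast.1 h1
  have hδ : Nat.gcd g D = Nat.gcd g' D := Nat.dvd_antisymm hδ1 hδ2
  refine ⟨hδ, ?_⟩
  have hδpos : 0 < Nat.gcd g D := Nat.gcd_pos_of_pos_left _ hg
  have hcg : Nat.Coprime (g / Nat.gcd g D) (D / Nat.gcd g D) := Nat.coprime_div_gcd_div_gcd hδpos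
  have hcg' : Nat.Coprime (g' / Nat.gcd g D) (D / Nat.gcd g D) := by
    rw [hδ]
    exact Nat.coprime_div_gcd_div_gcd (by rw [← hδ]; exact hδpos)
  have cg : IsCoprime ((g / Nat.gcd g D : ℕ) : ℤ) ((D / Nat.gcd g D : ℕ) : ℤ) :=
    Nat.isCoprime_iff_coprime.2 hcg
  have cg' : IsCoprime ((g' / Nat.gcd g D : ℕ) : ℤ) ((D / Nat.gcd g D : ℕ) : ℤ) :=
    Nat.isCoprime_iff_coprime.2 hcg'
  have eg : (g : ℤ) = ((Nat.gcd g D : ℕ) : ℤ) * ((g / Nat.gcd g D : ℕ) : ℤ) := by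
    exact_mod_cast (Nat.mul_div_cancel' (Nat.gcd_dvd_left g D)).symm
  have eg' : (g' : ℤ) = ((Nat.gcd g D : ℕ) : ℤ) * ((g' / Nat.gcd g D : ℕ) : ℤ) := by
    have h1 : Nat.gcd g D ∣ g' := by rw [hδ]; exact Nat.gcd_dvd_left _ _
    exact_mod_cast (Nat.mul_div_cancel' h1).symm
  have eD : (D : ℤ) = ((Nat.gcd g D : ℕ) : ℤ) * ((D / Nat.gcd g D : ℕ) : ℤ) := by
    exact_mod_cast (Nat.mul_div_cancel' (Nat.gcd_dvd_right g D)).symm
  have hδz : ((Nat.gcd g D : ℕ) : ℤ) ≠ 0 := by exact_mod_cast hδpos.ne'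
  have hκD : IsCoprime κ ((D / Nat.gcd g D : ℕ) : ℤ) :=
    hκ.of_isCoprime_of_dvd_right ⟨_, by rw [mul_comm]; exact eD⟩
  obtain ⟨h', w, hw⟩ := cg'
  refine ⟨h' * κ * ((g / Nat.gcd g D : ℕ) : ℤ), ?_, ?_⟩
  · refine IsCoprime.mul_left (IsCoprime.mul_left ?_ hκD) cg
    exact ⟨((g' / Nat.gcd g D : ℕ) : ℤ), w, by linarith⟩
  · intro i j
    obtain ⟨c, hc⟩ := hrel i j
    generalize ((g / Nat.gcd g D : ℕ) : ℤ) = G1 at *
    generalize ((g' / Nat.gcd g D : ℕ) : ℤ) = G1' at *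
    generalize ((D / Nat.gcd g D : ℕ) : ℤ) = D1 at *
    generalize ((Nat.gcd g D : ℕ) : ℤ) = δ at *
    have h2 : G1' * z' i j - κ * (G1 * z i j) = D1 * c := by
      refine mul_left_cancel₀ hδz ?_
      rw [eD, eg', eg] at hc
      linear_combination hc
    exact ⟨h' * c + w * z' i j, by linear_combination h' * h2 - z' i j * hw⟩

end ARRProof

open ARRProof in
theorem st_ARR : ST_ARR := by
  intro a ha
  exact ⟨plu_arr a, content a ha, gcd_eq a⟩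

end Pool.Helper13.R6
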