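import Pool.Agent.Helper13.R6.SheetB

/-! # FB6: the tuple determines the form -/

set_option autoImplicit false

namespace Pool.Helper13.R6

open Pool.Helper17.R5 (V3 TF tfa tfb tfh tfk tfd tfe ev pol disc lin det3 Rep bq)

namespace FB6Proof

theorem lin_ext (α α' x y z : V3) (h : det3 x y z ≠ 0) (hx : lin α x = lin α' x)
    (hy : lin α y = lin α' y) (hz : lin α z = lin α' z) : α = α' := by
  obtain ⟨a1, a2, a3⟩ := α
  obtain ⟨b1, b2, b3⟩ := α'
  obtain ⟨x1, x2, x3⟩ := x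
  obtain ⟨y1, y2, y3⟩ := y
  obtain ⟨z1, z2, z3⟩ := z
  simp only [lin, det3] at h hx hy hz
  have h1 : (x1 * (y2 * z3 - y3 * z2) - x2 * (y1 * z3 - y3 * z1) + x3 * (y1 * z2 - y2 * z1)) *
      (a1 - b1) = 0 := by
    linear_combination (y2 * z3 - y3 * z2) * hx - (x2 * z3 - x3 * z2) * hy +
      (x2 * y3 - x3 * y2) * hz
  have h2 : (x1 * (y2 * z3 - y3 * z2) - x2 * (y1 * z3 - y3 * z1) + x3 * (y1 * z2 - y2 * z1)) *
      (a2 - b2) = 0 := by
    linear_combination (-(y1 * z3 - y3 * z1)) * hx + (x1 * z3 - x3 * z1) * hy -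
      (x1 * y3 - x3 * y1) * hz
  have h3 : (x1 * (y2 * z3 - y3 * z2) - x2 * (y1 * z3 - y3 * z1) + x3 * (y1 * z2 - y2 * z1)) *
      (a3 - b3) = 0 := by
    linear_combination (y1 * z2 - y2 * z1) * hx - (x1 * z2 - x2 * z1) * hy +
      (x1 * y2 - x2 * y1) * hz
  have e1 : a1 = b1 := by
    rcases mul_eq_zero.1 h1 with h | h'
    · exact absurd h ‹_›
    · linarith
  have e2 : a2 = b2 := by
    rcases mul_eq_zero.1 h2 with h | h'
    · exact absurd h ‹_›
    · linarith
  have e3 : a3 = b3 := by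
    rcases mul_eq_zero.1 h3 with h | h'
    · exact absurd h ‹_›
    · linarith
  rw [e1, e2, e3]

theorem form_ext (N N' : TF) (h : ∀ t : V3, ev N t = ev N' t) : N = N' := by
  obtain ⟨a, b, c, d, e, f⟩ := N
  obtain ⟨a', b', c', d', e', f'⟩ := N'
  have h1 := h (1, 0, 0)
  have h2 := h (0, 1, 0)
  have h3 := h (0, 0, 1)
  have h4 := h (1, 1, 0)
  have h5 := h (1, 0, 1)
  have h6 := h (0, 1, 1)
  simp only [ev, tfa, tfb, tfh, tfk, tfd, tfe] at h1 h2 h3 h4 h5 h6
  ring_nf at h1 h2 h3 h4 h5 h6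
  have e1 : a = a' := by linarith
  have e2 : c = c' := by linarith
  have e3 : f = f' := by linarith
  have e4 : b = b' := by linarith
  have e5 : d = d' := by linarith
  have e6 : e = e' := by linarith
  rw [e1, e2, e3, e4, e5, e6]

end FB6Proof

open FB6Proof in
theorem st_FB6 : ST_FB6 := by
  intro vu hdet N N' t ht hN hN'
  obtain ⟨α, β, γ, hR, p, r, hv, hy⟩ := hN
  obtain ⟨α', β', γ', hR', p', r', hv', hy'⟩ := hN'
  have hD : (t.1 : ℤ) ≠ 0 := by exact_mod_cast ht.ne'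
  have hp : ∀ u, p u = p' u := by
    intro u
    have h1 := (hy u).1
    have h2 := (hy' u).1
    exact mul_right_cancel₀ hD (by linarith)
  have hr : ∀ u, r u = r' u := by
    intro u
    have h1 := (hy u).2
    have h2 := (hy' u).2
    exact mul_right_cancel₀ hD (by linarith)
  have hα : ∀ u, lin α (vu u) = lin α' (vu u) := by
    intro u
    rw [(hv u).1, (hv' u).1]
  have hβ : ∀ u, lin β (vu u) = lin β' (vu u) := by
    intro u
    have h1 := (hv u).2.1
    have h2 := (hv' u).2.1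
    rw [hp u, hr u] at h1
    linarith
  have hγ : ∀ u, lin γ (vu u) = lin γ' (vu u) := by
    intro u
    rw [(hv u).2.2, (hv' u).2.2, hp u, hr u]
  have eα := lin_ext α α' _ _ _ hdet (hα 0) (hα 1) (hα 2)
  have eβ := lin_ext β β' _ _ _ hdet (hβ 0) (hβ 1) (hβ 2)
  have eγ := lin_ext γ γ' _ _ _ hdet (hγ 0) (hγ 1) (hγ 2)
  subst eα eβ eγ
  exact form_ext N N' (fun t => (hR t).trans (hR' t).symm)

end Pool.Helper13.R6
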