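import Pool.Agent.Helper67.R6.Fam

/-! # SVB: the common zeros of `A` and `B` lie on a curve of degree 6 (MP_798d7d_nt, rank six) -/

set_option autoImplicit false

namespace Pool.Helper67.R6

namespace SVBProof

section
variable {R : Type*} [CommRing R]

def PP (u v : Fin 3 → R) : R :=
  5 * qc u v ^ 3 - 1080 * (qb u v * qc u v * qd u v) + 216 * (qa u v * qd u v ^ 2) +
    2592 * (qe u v * qb u v ^ 2)

theorem PP_eq (u v : Fin 3 → R) : 20 * PP u v = qB u v + 3 * qc u v * qA u v := by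
  unfold PP qB qA
  ring

theorem map_PP {S : Type*} [CommRing S] (φ : R →+* S) (u v : Fin 3 → R) :
    φ (PP u v) = PP (fun i => φ (u i)) (fun i => φ (v i)) := by
  simp only [PP, qa, qb, qc, qd, qe, map_add, map_sub, map_mul, map_pow, map_ofNat, map_neg]

end

section
variable {F : Type} [Field F]

theorem minors (s0 s1 s2 t0 t1 t2 : F) (h30 : (30 : F) ≠ 0) (h13 : (13 : F) ≠ 0)
    (hs : -13 * s0 ^ 2 + 16 * s1 ^ 2 - 48 * s2 ^ 2 = 0)
    (hB : -13 * (s0 * t0) + 16 * (s1 * t1) - 48 * (s2 * t2) = 0)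
    (ht : -13 * t0 ^ 2 + 16 * t1 ^ 2 - 48 * t2 ^ 2 = 0) :
    s1 * t2 - s2 * t1 = 0 ∧ s0 * t2 - s2 * t0 = 0 ∧ s0 * t1 - s1 * t0 = 0 := by
  have h2 : (2 : F) ≠ 0 := fun h => h30 (by linear_combination 15 * h)
  have h3 : (3 : F) ≠ 0 := fun h => h30 (by linear_combination 10 * h)
  have k1 : (2 : F) ^ 8 * 3 * (s1 * t2 - s2 * t1) ^ 2 = 0 := by
    linear_combination (-1) * ((-48 * t2 ^ 2 + 16 * t1 ^ 2) * hs +
      (-13 * s0 * t0 + 48 * s2 * t2 - 16 * s1 * t1) * hB + 13 * s0 ^ 2 * ht)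
  have k2 : (13 : F) * 2 ^ 4 * 3 * (s0 * t2 - s2 * t0) ^ 2 = 0 := by
    linear_combination ((-13 * t0 ^ 2 - 48 * t2 ^ 2) * hs +
      (16 * s1 * t1 + 13 * s0 * t0 + 48 * s2 * t2) * hB - 16 * s1 ^ 2 * ht)
  have k3 : (13 : F) * 2 ^ 4 * (s0 * t1 - s1 * t0) ^ 2 = 0 := by
    linear_combination (-1) * ((-13 * t0 ^ 2 + 16 * t1 ^ 2) * hs +
      (-48 * s2 * t2 + 13 * s0 * t0 - 16 * s1 * t1) * hB + 48 * s2 ^ 2 * ht)
  have e1 : (2 : F) ^ 8 * 3 ≠ 0 := mul_ne_zero (pow_ne_zero _ h2) h3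
  have e2 : (13 : F) * 2 ^ 4 * 3 ≠ 0 := mul_ne_zero (mul_ne_zero h13 (pow_ne_zero _ h2)) h3
  have e3 : (13 : F) * 2 ^ 4 ≠ 0 := mul_ne_zero h13 (pow_ne_zero _ h2)
  exact ⟨pow_eq_zero_iff (two_ne_zero) |>.1 ((mul_eq_zero.1 k1).resolve_left e1),
    pow_eq_zero_iff (two_ne_zero) |>.1 ((mul_eq_zero.1 k2).resolve_left e2),
    pow_eq_zero_iff (two_ne_zero) |>.1 ((mul_eq_zero.1 k3).resolve_left e3)⟩

/-- the quadratic part -/
def ff (z : Fin 6 → F) (x y : F) : F :=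
  -13 * (x * z 3 - z 0 * y) ^ 2 + 16 * (x * z 4 - z 1 * y) ^ 2 - 48 * (x * z 5 - z 2 * y) ^ 2

theorem exists_line (h30 : (30 : F) ≠ 0) (h13 : (13 : F) ≠ 0) (z : Fin 6 → F) (hV : V z ≠ 0) :
    ∃ x y : F, ff z x y ≠ 0 := by
  by_contra hne
  push Not at hne
  have h2 : (2 : F) ≠ 0 := fun h => h30 (by linear_combination 15 * h)
  have h10 := hne 1 0
  have h01 := hne 0 1
  have h11 := hne 1 1
  unfold ff at h10 h01 h11
  have hB : -13 * (z 0 * z 3) + 16 * (z 1 * z 4) - 48 * (z 2 * z 5) = 0 := by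
    refine (mul_eq_zero.1 (?_ : (2 : F) * _ = 0)).resolve_left h2
    linear_combination h10 + h01 - h11
  obtain ⟨m1, m2, m3⟩ := minors (z 0) (z 1) (z 2) (z 3) (z 4) (z 5) h30 h13
    (by linear_combination h01) hB (by linear_combination h10)
  apply hV
  funext i
  fin_cases i
  · show 4 * (z 1 * z 5 - z 2 * z 4) = 0
    rw [m1, mul_zero]
  · show 5 * (z 0 * z 5 - z 2 * z 3) = 0
    rw [m2, mul_zero]
  · show 5 * (z 0 * z 4 - z 1 * z 3) = 0
    rw [m3, mul_zero]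

open MvPolynomial

theorem D_add {p q : MvPolynomial (Fin 2) F} {k : ℕ} (hp : p.totalDegree ≤ k)
    (hq : q.totalDegree ≤ k) : (p + q).totalDegree ≤ k :=
  (totalDegree_add p q).trans (max_le hp hq)

theorem D_sub {p q : MvPolynomial (Fin 2) F} {k : ℕ} (hp : p.totalDegree ≤ k)
    (hq : q.totalDegree ≤ k) : (p - q).totalDegree ≤ k :=
  (totalDegree_sub p q).trans (max_le hp hq)

theorem D_mul {p q : MvPolynomial (Fin 2) F} {j k l : ℕ} (hp : p.totalDegree ≤ j)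
    (hq : q.totalDegree ≤ k) (h : j + k ≤ l) : (p * q).totalDegree ≤ l :=
  (totalDegree_mul p q).trans ((add_le_add hp hq).trans h)

theorem D_pow {p : MvPolynomial (Fin 2) F} {k l : ℕ} (n : ℕ) (hp : p.totalDegree ≤ k)
    (h : n * k ≤ l) : (p ^ n).totalDegree ≤ l :=
  (totalDegree_pow p n).trans ((Nat.mul_le_mul_left n hp).trans h)

theorem D_C (a : F) : (C a : MvPolynomial (Fin 2) F).totalDegree ≤ 0 := (totalDegree_C a).le

theorem D_cmul {p : MvPolynomial (Fin 2) F} {k : ℕ} (a : F) (hp : p.totalDegree ≤ k) :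
    (C a * p).totalDegree ≤ k := D_mul (D_C a) hp (by omega)

theorem D_num (n : ℕ) [n.AtLeastTwo] {p : MvPolynomial (Fin 2) F} {k : ℕ}
    (hp : p.totalDegree ≤ k) : ((OfNat.ofNat n : MvPolynomial (Fin 2) F) * p).totalDegree ≤ k := by
  have : (OfNat.ofNat n : MvPolynomial (Fin 2) F) = C (OfNat.ofNat n : F) :=
    (map_ofNat (C : F →+* MvPolynomial (Fin 2) F) n).symm
  rw [this]
  exact D_cmul _ hp

theorem D_neg {p : MvPolynomial (Fin 2) F} {k : ℕ} (hp : p.totalDegree ≤ k) :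
    (-p).totalDegree ≤ k := by rwa [totalDegree_neg]

theorem deg_PP (u v : Fin 3 → MvPolynomial (Fin 2) F) (hu : ∀ i, (u i).totalDegree ≤ 1)
    (hv : ∀ i, (v i).totalDegree ≤ 0) : (PP u v).totalDegree ≤ 6 := by
  have q2 : ∀ i, (u i ^ 2 + v i ^ 2).totalDegree ≤ 2 := fun i =>
    D_add (D_pow 2 (hu i) (by norm_num)) (D_pow 2 (hv i) (by norm_num))
  have q1 : ∀ i, (u i * v i).totalDegree ≤ 1 := fun i => D_mul (hu i) (hv i) (by norm_num)
  have ha : (qa u v).totalDegree ≤ 2 :=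
    D_add (D_sub (D_num 5 (q2 0)) (D_num 8 (q2 1))) (D_num 3 (q2 2))
  have hb : (qb u v).totalDegree ≤ 1 := D_sub (q1 1) (D_num 2 (q1 0))
  have hc : (qc u v).totalDegree ≤ 2 := by
    refine D_sub (D_add ?_ (D_num 16 (q2 1))) (D_num 3 (q2 2))
    rw [neg_mul]
    exact D_neg (D_num 13 (q2 0))
  have hd : (qd u v).totalDegree ≤ 1 := D_sub (D_num 8 (q1 0)) (q1 1)
  have he : (qe u v).totalDegree ≤ 2 :=
    D_add (D_sub (D_num 15 (q2 0)) (D_num 6 (q2 1))) (q2 2)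
  unfold PP
  refine D_add (D_add (D_sub (D_num 5 (D_pow 3 hc (by norm_num))) (D_num 1080 ?_))
    (D_num 216 ?_)) (D_num 2592 ?_)
  · exact D_mul (D_mul (l := 3) hb hc (by norm_num)) hd (by norm_num)
  · exact D_mul ha (D_pow (l := 2) 2 hd (by norm_num)) (by norm_num)
  · exact D_mul he (D_pow (l := 2) 2 hb (by norm_num)) (by norm_num)

/-- leading coefficient along a line -/
theorem lead (a0 a1 b c0 c1 d e0 e1 : F)
    (h : (5 * (Polynomial.C c1 * Polynomial.X ^ 2 + Polynomial.C c0) ^ 3 -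
      1080 * ((Polynomial.C b * Polynomial.X) * (Polynomial.C c1 * Polynomial.X ^ 2 +
        Polynomial.C c0) * (Polynomial.C d * Polynomial.X)) +
      216 * ((Polynomial.C a1 * Polynomial.X ^ 2 + Polynomial.C a0) *
        (Polynomial.C d * Polynomial.X) ^ 2) +
      2592 * ((Polynomial.C e1 * Polynomial.X ^ 2 + Polynomial.C e0) *
        (Polynomial.C b * Polynomial.X) ^ 2) : Polynomial F) = 0) : 5 * c1 ^ 3 = 0 := by
  have h1 : (Polynomial.C (5 * c1 ^ 3) * Polynomial.X ^ 6 +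
      Polynomial.C (15 * c1 ^ 2 * c0 - 1080 * b * c1 * d + 216 * a1 * d ^ 2 +
        2592 * e1 * b ^ 2) * Polynomial.X ^ 4 +
      Polynomial.C (15 * c1 * c0 ^ 2 - 1080 * b * c0 * d + 216 * a0 * d ^ 2 +
        2592 * e0 * b ^ 2) * Polynomial.X ^ 2 +
      Polynomial.C (5 * c0 ^ 3) : Polynomial F) = 0 := by
    rw [← h]
    simp only [map_add, map_sub, map_mul, map_pow, map_ofNat]
    ring
  have h2 := congrArg (fun p => Polynomial.coeff p 6) h1
  simp only [Polynomial.coeff_add, Polynomial.coeff_C_mul, Polynomial.coeff_X_pow,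
    Polynomial.coeff_C, Polynomial.coeff_zero] at h2
  norm_num at h2
  rw [mul_eq_zero]
  rcases h2 with h2 | h2
  · exact Or.inl h2
  · exact Or.inr (by rw [h2]; ring)

end

end SVBProof

open SVBProof MvPolynomial in
theorem st_SVB : ST_SVB := by
  intro F _ h30 h13 z hV
  have h5 : (5 : F) ≠ 0 := fun h => h30 (by linear_combination 6 * h)
  have h2 : (2 : F) ≠ 0 := fun h => h30 (by linear_combination 15 * h)
  have h20 : (20 : F) ≠ 0 := by
    have : (20 : F) = 2 ^ 2 * 5 := by norm_num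
    rw [this]
    exact mul_ne_zero (pow_ne_zero _ h2) h5
  let uu : Fin 3 → MvPolynomial (Fin 2) F := U ((X 0, X 1), fun i => C (z i))
  let vv : Fin 3 → MvPolynomial (Fin 2) F := fun i => C (V z i)
  refine ⟨PP uu vv, ?_, ?_, ?_⟩
  · intro h0
    obtain ⟨x, y, hxy⟩ := exists_line h30 h13 z hV
    let φ : MvPolynomial (Fin 2) F →+* Polynomial F :=
      (aeval ![Polynomial.C x * Polynomial.X, Polynomial.C y * Polynomial.X] :
        MvPolynomial (Fin 2) F →ₐ[F] Polynomial F).toRingHom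
    have hφ0 : φ (X 0) = Polynomial.C x * Polynomial.X := by
      simp [φ]
    have hφ1 : φ (X 1) = Polynomial.C y * Polynomial.X := by
      simp [φ]
    have hφC : ∀ a : F, φ (C a) = Polynomial.C a := by
      intro a
      simp [φ]
    have h1 := congrArg φ h0
    rw [map_PP, map_zero] at h1
    have e0 : φ (uu 0) = Polynomial.C (x * z 3 - z 0 * y) * Polynomial.X := by
      show φ (X 0 * C (z 3) - C (z 0) * X 1) = _
      rw [map_sub, map_mul, map_mul, hφ0, hφ1, hφC, hφC]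
      simp only [map_sub, map_mul]
      ring
    have e1 : φ (uu 1) = Polynomial.C (x * z 4 - z 1 * y) * Polynomial.X := by
      show φ (X 0 * C (z 4) - C (z 1) * X 1) = _
      rw [map_sub, map_mul, map_mul, hφ0, hφ1, hφC, hφC]
      simp only [map_sub, map_mul]
      ring
    have e2 : φ (uu 2) = Polynomial.C (4 * (x * z 5 - z 2 * y)) * Polynomial.X := by
      show φ (4 * (X 0 * C (z 5) - C (z 2) * X 1)) = _
      rw [map_mul, map_sub, map_mul, map_mul, hφ0, hφ1, hφC, hφC, map_ofNat]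
      simp only [map_sub, map_mul, map_ofNat]
      ring
    have ev : ∀ i, φ (vv i) = Polynomial.C (V z i) := fun i => hφC _
    have key := lead
      (5 * V z 0 ^ 2 - 8 * V z 1 ^ 2 + 3 * V z 2 ^ 2)
      (5 * (x * z 3 - z 0 * y) ^ 2 - 8 * (x * z 4 - z 1 * y) ^ 2 +
        3 * (4 * (x * z 5 - z 2 * y)) ^ 2)
      ((x * z 4 - z 1 * y) * V z 1 - 2 * ((x * z 3 - z 0 * y) * V z 0))
      (-13 * V z 0 ^ 2 + 16 * V z 1 ^ 2 - 3 * V z 2 ^ 2)
      (ff z x y)
      (8 * ((x * z 3 - z 0 * y) * V z 0) - (x * z 4 - z 1 * y) * V z 1)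
      (15 * V z 0 ^ 2 - 6 * V z 1 ^ 2 + V z 2 ^ 2)
      (15 * (x * z 3 - z 0 * y) ^ 2 - 6 * (x * z 4 - z 1 * y) ^ 2 +
        (4 * (x * z 5 - z 2 * y)) ^ 2) (by
      rw [← h1]
      simp only [PP, qa, qb, qc, qd, qe, e0, e1, e2, ev, ff]
      simp only [map_add, map_sub, map_mul, map_pow, map_ofNat, map_neg]
      ring)
    rcases mul_eq_zero.1 key with h | h
    · exact h5 h
    · exact hxy (pow_eq_zero_iff (by norm_num) |>.1 h)
  · refine deg_PP uu vv ?_ (fun i => D_C _)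
    have hX : ∀ i : Fin 2, (X i : MvPolynomial (Fin 2) F).totalDegree ≤ 1 := fun i =>
      (totalDegree_X i).le
    intro i
    fin_cases i
    · show (X 0 * C (z 3) - C (z 0) * X 1 : MvPolynomial (Fin 2) F).totalDegree ≤ 1
      exact D_sub (D_mul (hX 0) (D_C _) (by norm_num)) (D_cmul _ (hX 1))
    · show (X 0 * C (z 4) - C (z 1) * X 1 : MvPolynomial (Fin 2) F).totalDegree ≤ 1
      exact D_sub (D_mul (hX 0) (D_C _) (by norm_num)) (D_cmul _ (hX 1))
    · show (4 * (X 0 * C (z 5) - C (z 2) * X 1) : MvPolynomial (Fin 2) F).totalDegree ≤ 1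
      exact D_num 4 (D_sub (D_mul (hX 0) (D_C _) (by norm_num)) (D_cmul _ (hX 1)))
  · intro x y hA hB
    rw [show MvPolynomial.eval ![x, y] (PP uu vv) = (eval ![x, y]) (PP uu vv) from rfl, map_PP]
    have e : (fun i => (eval ![x, y]) (uu i)) = U ((x, y), z) := by
      funext i
      fin_cases i <;> simp [uu, U]
    have e' : (fun i => (eval ![x, y]) (vv i)) = V z := by
      funext i
      simp [vv]
    rw [e, e']
    have h1 := PP_eq (U ((x, y), z)) (V z)
    rw [hA, hB, mul_zero, add_zero] at h1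
    exact (mul_eq_zero.1 h1).resolve_left h20

end Pool.Helper67.R6
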